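import Pool.Agent.ISR.Limit

set_option autoImplicit false
open Classical

/-!
Independence number versus average size of an independent set in triangle-free graphs:
for every constant `c` (and every fugacity) the bound `ratio ≥ c - o(1)` as the minimum degree tends
to infinity holds if and only if `ratio ≥ c` for all nonempty triangle-free graphs.
-/

namespace Pool.Agent.Results.MP_97ae25_co.MinDegreeVacuous

open Pool.Agent.ISR

/-- Q1 at fugacity `lam` with `c` in place of `2`: for every `ε > 0` there is `d0` such that every
finite triangle-free graph `G` of minimum degree at least `d0` has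
`α(G) / (α_G(lam) |V(G)|) ≥ c - ε`. -/
def MinDegreeBound (lam c : ℝ) : Prop :=
  ∀ ε : ℝ, 0 < ε → ∃ d0 : ℕ, ∀ (V : Type) [Fintype V] (G : SimpleGraph V),
    G.CliqueFree 3 → d0 ≤ G.minDegree → c - ε ≤ ratio G lam

/-- The bound `α(G) / (α_G(lam) |V(G)|) ≥ c` for all nonempty finite triangle-free graphs, without
any condition on degrees. -/
def AllGraphsBound (lam c : ℝ) : Prop :=
  ∀ (V : Type) [Fintype V] [Nonempty V] (G : SimpleGraph V),
    G.CliqueFree 3 → c ≤ ratio G lam

/-- For every fugacity `lam > 0` and every real `c` the asymptotic bound `c - o(1)` for large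
minimum degree is equivalent to the bound `c` for all nonempty triangle-free graphs; at `lam = 1`
both fail for `c > 117/80`, in particular for `c = 2`. -/
theorem result :
    (∀ lam : ℝ, 0 < lam → ∀ c : ℝ, (MinDegreeBound lam c ↔ AllGraphsBound lam c)) ∧
      ∀ c : ℝ, MinDegreeBound 1 c → c ≤ 117 / 80 := by
  have key : ∀ lam : ℝ, 0 < lam → ∀ c : ℝ, (MinDegreeBound lam c ↔ AllGraphsBound lam c) := by
    intro lam hl c
    constructor
    · intro hA V _ _ G hG
      by_contra hlt
      push Not at hlt
      obtain ⟨d0, hd0⟩ := hA ((c - ratio G lam) / 2) (by linarith)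
      obtain ⟨V', _, G', hG', hd, hr⟩ := transfer G hG hl d0
        (b := c - (c - ratio G lam) / 2) (by linarith)
      exact absurd (hd0 V' G' hG' hd) (not_le.2 hr)
    · intro hB ε hε
      refine ⟨1, fun V _ G hG hd => ?_⟩
      have hne : Nonempty V := by
        by_contra hemp
        rw [not_nonempty_iff] at hemp
        have h0 : G.minDegree = 0 := SimpleGraph.minDegree_of_subsingleton G
        omega
      have := hB V G hG
      linarith
  refine ⟨key, fun c hc => ?_⟩
  exact ((key 1 one_pos c).1 hc (Fin 8) H8 H8_free).trans ratio8

end Pool.Agent.Results.MP_97ae25_co.MinDegreeVacuous
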